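import Mathlib
import Pool.Agent.Duplex38.Defs

/-!
Latin squares with a semiregular group of autotopisms: unions of cell orbits.
-/

set_option autoImplicit false

namespace Pool.Agent.SemiReg76

open Pool.Agent.Duplex38

/-- a set of cells meeting every row, every column and every symbol exactly `k` times -/
def IsPlex {R C S : Type} (k : ℕ) (L : R → C → S) (D : Set (R × C)) : Prop :=
  (∀ r, {c | (r, c) ∈ D}.ncard = k) ∧ (∀ c, {r | (r, c) ∈ D}.ncard = k) ∧
    ∀ s, {x | x ∈ D ∧ L x.1 x.2 = s}.ncard = k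

lemma isDuplex_of_isPlex {R C S : Type} {L : R → C → S} {D : Set (R × C)} (h : IsPlex 2 L D) :
    IsDuplex L D := h

/-- the union of the orbits of the members of `X` -/
def sat (G : Type) {Y : Type} [Group G] [MulAction G Y] (X : Set Y) : Set Y :=
  {y | ∃ g : G, ∃ x ∈ X, g • x = y}

theorem orb_count {G Y Z : Type} [Group G] [MulAction G Y] [MulAction G Z]
    (hfree : ∀ (g : G) (z : Z), g • z = z → g = 1) (π : Y → Z)
    (hπ : ∀ (g : G) (y : Y), π (g • y) = g • π y) (X : Set Y)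
    (hX : ∀ x ∈ X, ∀ y ∈ X, ∀ g : G, g • x = y → x = y) (z : Z) :
    {y | y ∈ sat G X ∧ π y = z}.ncard = {x | x ∈ X ∧ ∃ g : G, g • π x = z}.ncard := by
  classical
  symm
  refine Set.ncard_congr (fun x hx => (Classical.choose hx.2) • x) ?_ ?_ ?_
  · intro x hx
    refine ⟨⟨_, x, hx.1, rfl⟩, ?_⟩
    rw [hπ]
    exact Classical.choose_spec hx.2
  · intro x y hx hy hxy
    refine hX x hx.1 y hy.1 ((Classical.choose hy.2)⁻¹ * Classical.choose hx.2) ?_
    rw [mul_smul, hxy, inv_smul_smul]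
  · rintro y ⟨⟨g, x, hx, rfl⟩, hz⟩
    have h1 : g • π x = z := by rw [← hπ]; exact hz
    refine ⟨x, ⟨hx, g, h1⟩, ?_⟩
    have h2 := Classical.choose_spec (⟨g, h1⟩ : ∃ g : G, g • π x = z)
    have h3 : Classical.choose (⟨g, h1⟩ : ∃ g : G, g • π x = z) = g := by
      have h4 := hfree (g⁻¹ * Classical.choose (⟨g, h1⟩ : ∃ g : G, g • π x = z)) (π x) (by
        rw [mul_smul, h2, ← h1, inv_smul_smul])
      rw [inv_mul_eq_one] at h4
      exact h4.symm
    show Classical.choose (⟨g, h1⟩ : ∃ g : G, g • π x = z) • x = g • x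
    rw [h3]

section

variable {G R C S : Type} [Group G] [MulAction G R] [MulAction G C] [MulAction G S]

theorem isPlex_sat (fR : ∀ (g : G) (r : R), g • r = r → g = 1)
    (fC : ∀ (g : G) (c : C), g • c = c → g = 1) (fS : ∀ (g : G) (s : S), g • s = s → g = 1)
    (L : R → C → S) (hL : ∀ (g : G) (r : R) (c : C), L (g • r) (g • c) = g • L r c)
    (X : Set (R × C)) (hX : ∀ x ∈ X, ∀ y ∈ X, ∀ g : G, g • x = y → x = y) {k : ℕ}
    (h1 : ∀ r, {x | x ∈ X ∧ ∃ g : G, g • x.1 = r}.ncard = k)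
    (h2 : ∀ c, {x | x ∈ X ∧ ∃ g : G, g • x.2 = c}.ncard = k)
    (h3 : ∀ s, {x | x ∈ X ∧ ∃ g : G, g • (L x.1 x.2) = s}.ncard = k) :
    IsPlex k L (sat G X) := by
  refine ⟨fun r => ?_, fun c => ?_, fun s => ?_⟩
  · rw [← h1 r, ← orb_count fR Prod.fst (fun g y => rfl) X hX r]
    refine Set.ncard_congr (fun c _ => (r, c)) (fun c hc => ⟨hc, rfl⟩) (fun a b _ _ h => ?_) ?_
    · simpa using h
    · rintro ⟨r', c⟩ ⟨h, rfl⟩
      exact ⟨c, h, rfl⟩
  · rw [← h2 c, ← orb_count fC Prod.snd (fun g y => rfl) X hX c]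
    refine Set.ncard_congr (fun r _ => (r, c)) (fun c hc => ⟨hc, rfl⟩) (fun a b _ _ h => ?_) ?_
    · simpa using h
    · rintro ⟨r, c'⟩ ⟨h, rfl⟩
      exact ⟨r, h, rfl⟩
  · rw [← h3 s, ← orb_count fS (fun x : R × C => L x.1 x.2) (fun g y => hL g y.1 y.2) X hX s]

end

/-- an orbit map -/
theorem exists_orbit_map (G X : Type) [Group G] [MulAction G X] [Finite X] {d : ℕ}
    (hd : Nat.card (MulAction.orbitRel.Quotient G X) = d) :
    ∃ ρ : X → Fin d, Function.Surjective ρ ∧ ∀ x y, ρ x = ρ y ↔ ∃ g : G, g • x = y := by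
  classical
  have e : MulAction.orbitRel.Quotient G X ≃ Fin d := Finite.equivFinOfCardEq hd
  refine ⟨fun x => e (Quotient.mk'' x), ?_, fun x y => ?_⟩
  · intro i
    obtain ⟨x, hx⟩ := Quotient.exists_rep (e.symm i)
    refine ⟨x, ?_⟩
    have : (Quotient.mk'' x : MulAction.orbitRel.Quotient G X) = e.symm i := hx
    show e _ = i
    rw [this, Equiv.apply_symm_apply]
  · rw [e.injective.eq_iff]
    constructor
    · intro h
      have h2 : (MulAction.orbitRel G X).r x y := Quotient.exact h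
      have h3 : x ∈ MulAction.orbit G y := h2
      obtain ⟨g, hg⟩ := h3
      exact ⟨g⁻¹, by rw [← hg]; exact inv_smul_smul g y⟩
    · rintro ⟨g, rfl⟩
      refine Quotient.sound ?_
      show x ∈ MulAction.orbit G (g • x)
      exact ⟨g⁻¹, inv_smul_smul g x⟩

/-- all orbits of a free action have the size of the group -/
theorem card_fiber {G X : Type} [Group G] [MulAction G X]
    (hfree : ∀ (g : G) (x : X), g • x = x → g = 1) {d : ℕ} {ρ : X → Fin d}
    (hs : Function.Surjective ρ) (hρ : ∀ x y, ρ x = ρ y ↔ ∃ g : G, g • x = y) (i : Fin d) :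
    {x | ρ x = i}.ncard = Nat.card G := by
  obtain ⟨x₀, rfl⟩ := hs i
  have h1 : {x | ρ x = ρ x₀} = Set.range fun g : G => g • x₀ := by
    ext x
    simp only [Set.mem_setOf_eq, Set.mem_range]
    rw [eq_comm, hρ]
  have h2 : Function.Injective fun g : G => g • x₀ := by
    intro g h hgh
    have := hfree (h⁻¹ * g) x₀ (by
      rw [mul_smul]
      show h⁻¹ • (g • x₀) = x₀
      have h3 : g • x₀ = h • x₀ := hgh
      rw [h3, inv_smul_smul])
    rw [inv_mul_eq_one] at this
    exact this.symm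
  rw [h1, ← Set.image_univ, Set.ncard_image_of_injective _ h2, Set.ncard_univ]

end Pool.Agent.SemiReg76
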