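import Pool.Agent.SemiReg76.Types

/-!
Two orbits: the cells are partitioned into duplexes.
-/

set_option autoImplicit false

namespace Pool.Agent.SemiReg76

open Pool.Agent.Duplex38

section

variable {G R C S : Type} [Group G] [MulAction G R] [MulAction G C] [MulAction G S]
  {L : R → C → S}

/-- the parity class of a type -/
def base (t : Fin 2 × Fin 2 × Fin 2) : Fin 2 × Fin 2 × Fin 2 :=
  if t.1 + t.2.1 + t.2.2 = 0 then (0, 0, 0) else (1, 1, 1)

/-- the types of the parity class of `u` -/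
def PT (u : Fin 2 × Fin 2 × Fin 2) : Finset (Fin 2 × Fin 2 × Fin 2) :=
  Finset.univ.filter fun t => base t = u

lemma PT_count : ∀ u, base u = u → ∀ i, ((PT u).filter fun t => t.1 = i).card = 2 ∧
    ((PT u).filter fun t => t.2.1 = i).card = 2 ∧ ((PT u).filter fun t => t.2.2 = i).card = 2 := by
  decide

lemma base_base : ∀ t, base (base t) = base t := by decide

namespace Semi

/-- the number of cells depends on the parity class only -/
lemma B_base [Finite R] [Finite C] [Finite S] (A : Semi G R C S L 2)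
    (t : Fin 2 × Fin 2 × Fin 2) :
    {x : R × C | A.ty x = t}.ncard = {x : R × C | A.ty x = base t}.ncard := by
  have s1 := A.sum_sym 0 0
  have s2 := A.sum_sym 0 1
  have s3 := A.sum_sym 1 0
  have s4 := A.sum_sym 1 1
  have c1 := A.sum_col 0 0
  have c2 := A.sum_col 0 1
  have c3 := A.sum_col 1 0
  have c4 := A.sum_col 1 1
  have r1 := A.sum_row 0 0
  have r2 := A.sum_row 0 1
  have r3 := A.sum_row 1 0
  have r4 := A.sum_row 1 1
  simp only [Fin.sum_univ_two] at s1 s2 s3 s4 c1 c2 c3 c4 r1 r2 r3 r4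
  obtain ⟨i, j, k⟩ := t
  have h0 : ∀ i j k, {x : R × C | A.ty x = (i, j, k)}.ncard = A.B i j k := fun _ _ _ => rfl
  have hb : ∀ i j k : Fin 2, base (i, j, k) = if i + j + k = 0 then (0, 0, 0) else (1, 1, 1) :=
    fun _ _ _ => rfl
  rw [hb]
  fin_cases i <;> fin_cases j <;> fin_cases k <;> simp [h0] <;> omega

/-- the orbit of a cell -/
def qm (A : Semi G R C S L 2) (x : R × C) : MulAction.orbitRel.Quotient G (R × C) :=
  Quotient.mk'' x

/-- the type of an orbit of cells -/
noncomputable def tyQ (A : Semi G R C S L 2) (q : MulAction.orbitRel.Quotient G (R × C)) :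
    Fin 2 × Fin 2 × Fin 2 := A.ty q.out

lemma qm_out (A : Semi G R C S L 2) (q : MulAction.orbitRel.Quotient G (R × C)) :
    A.qm q.out = q := Quotient.out_eq q

lemma exists_smul (A : Semi G R C S L 2) {x y : R × C} (h : A.qm x = A.qm y) :
    ∃ g : G, g • x = y := by
  have h2 : (MulAction.orbitRel G (R × C)).r x y := Quotient.exact h
  have h3 : x ∈ MulAction.orbit G y := h2
  obtain ⟨g, hg⟩ := h3
  exact ⟨g⁻¹, by rw [← hg]; exact inv_smul_smul g y⟩

lemma qm_smul (A : Semi G R C S L 2) (g : G) (x : R × C) : A.qm (g • x) = A.qm x :=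
  Quotient.sound (show g • x ∈ MulAction.orbit G x from ⟨g, rfl⟩)

lemma tyQ_mk (A : Semi G R C S L 2) (x : R × C) : A.tyQ (A.qm x) = A.ty x := by
  obtain ⟨g, hg⟩ := A.exists_smul (A.qm_out (A.qm x))
  unfold tyQ
  conv_rhs => rw [← hg]
  rw [A.ty_smul]

/-- the number of orbits of a type -/
lemma card_orb (A : Semi G R C S L 2) (t : Fin 2 × Fin 2 × Fin 2) :
    Nat.card {q // A.tyQ q = t} * Nat.card G = {x : R × C | A.ty x = t}.ncard := by
  rw [← Nat.card_prod, ← Nat.card_coe_set_eq]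
  refine Nat.card_congr (Equiv.ofBijective
    (fun p : {q // A.tyQ q = t} × G => (⟨p.2 • p.1.1.out, by
      show A.ty _ = t
      rw [A.ty_smul]
      exact p.1.2⟩ : {x : R × C | A.ty x = t})) ⟨?_, ?_⟩)
  · rintro ⟨⟨q, hq⟩, g⟩ ⟨⟨q', hq'⟩, g'⟩ h
    have h1 : g • q.out = g' • q'.out := congrArg Subtype.val h
    have h2 : q = q' := by
      have h3 := A.qm_smul g q.out
      rw [h1, A.qm_smul, A.qm_out, A.qm_out] at h3
      exact h3.symm
    subst h2
    have h7 : (g'⁻¹ * g) • (q.out).1 = (q.out).1 := by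
      have h8 : g • (q.out).1 = g' • (q.out).1 := congrArg Prod.fst h1
      rw [mul_smul, h8, inv_smul_smul]
    have h9 := A.fR _ _ h7
    rw [inv_mul_eq_one] at h9
    rw [h9]
  · rintro ⟨x, hx⟩
    obtain ⟨g, hg⟩ := A.exists_smul (A.qm_out (A.qm x))
    refine ⟨⟨⟨A.qm x, ?_⟩, g⟩, Subtype.ext hg⟩
    rw [A.tyQ_mk]; exact hx

theorem partition [Finite R] [Finite C] [Finite S] (A : Semi G R C S L 2)
    (hG : 0 < Nat.card G) :
    ∃ 𝒟 : Set (Set (R × C)), 𝒟.PairwiseDisjoint id ∧ ⋃₀ 𝒟 = Set.univ ∧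
      ∀ D ∈ 𝒟, IsPlex 2 L D := by
  classical
  have hcard : ∀ t, Nat.card {q // A.tyQ q = t} = Nat.card {q // A.tyQ q = base t} := by
    intro t
    have h1 := A.card_orb t
    have h2 := A.card_orb (base t)
    rw [A.B_base t, ← h2] at h1
    exact Nat.eq_of_mul_eq_mul_right hG h1
  have hfin : Finite (MulAction.orbitRel.Quotient G (R × C)) := Quotient.finite _
  have heq : ∀ t, Nonempty ({q // A.tyQ q = t} ≃ {q // A.tyQ q = base t}) := fun t =>
    Finite.card_eq.1 (hcard t)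
  obtain ⟨ε⟩ : Nonempty (∀ t, {q // A.tyQ q = t} ≃ {q // A.tyQ q = base t}) :=
    Classical.nonempty_pi.2 heq
  set f : MulAction.orbitRel.Quotient G (R × C) → Fin 2 × Fin 2 × Fin 2 → R × C := fun w t =>
    if h : A.tyQ w = base t then ((ε t).symm ⟨w, h⟩).1.out else w.out with hf
  set D : MulAction.orbitRel.Quotient G (R × C) → Set (R × C) := fun w =>
    sat G (f w '' (PT (A.tyQ w) : Set (Fin 2 × Fin 2 × Fin 2))) with hD
  set F : R × C → MulAction.orbitRel.Quotient G (R × C) := fun y =>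
    (ε (A.ty y) ⟨A.qm y, A.tyQ_mk y⟩).1 with hF
  have hmem : ∀ w y, y ∈ D w ↔ F y = w := by
    intro w y
    constructor
    · rintro ⟨g, x, ⟨t, ht, rfl⟩, rfl⟩
      have ht' : A.tyQ w = base t := by
        have : t ∈ PT (A.tyQ w) := ht
        simp only [PT, Finset.mem_filter, Finset.mem_univ, true_and] at this
        exact this.symm
      have h1 : f w t = ((ε t).symm ⟨w, ht'⟩).1.out := by
        rw [hf]; exact dif_pos ht'
      have h2 : A.ty (g • f w t) = t := by
        rw [A.ty_smul, h1]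
        exact ((ε t).symm ⟨w, ht'⟩).2
      have h3 : A.qm (g • f w t) = ((ε t).symm ⟨w, ht'⟩).1 := by
        rw [A.qm_smul, h1, A.qm_out]
      generalize g • f w t = y at h2 h3
      subst h2
      rw [hF]
      show (ε (A.ty y) ⟨A.qm y, A.tyQ_mk y⟩).1 = w
      have h4 : (⟨A.qm y, A.tyQ_mk y⟩ : {q // A.tyQ q = A.ty y}) = (ε (A.ty y)).symm ⟨w, ht'⟩ :=
        Subtype.ext h3
      rw [h4, Equiv.apply_symm_apply]
    · intro h
      have h1 : A.tyQ w = base (A.ty y) := by
        rw [← h]; exact (ε (A.ty y) ⟨A.qm y, A.tyQ_mk y⟩).2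
      have h2 : (ε (A.ty y)).symm ⟨w, h1⟩ = ⟨A.qm y, A.tyQ_mk y⟩ := by
        rw [Equiv.symm_apply_eq]
        exact Subtype.ext h.symm
      have h3 : f w (A.ty y) = (A.qm y).out := by
        rw [hf]
        show (if h : A.tyQ w = base (A.ty y) then ((ε (A.ty y)).symm ⟨w, h⟩).1.out else w.out) = _
        rw [dif_pos h1, h2]
      obtain ⟨g, hg⟩ := A.exists_smul (A.qm_out (A.qm y))
      refine ⟨g, f w (A.ty y), ⟨A.ty y, ?_, rfl⟩, by rw [h3]; exact hg⟩
      show A.ty y ∈ PT (A.tyQ w)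
      simp only [PT, Finset.mem_filter, Finset.mem_univ, true_and]
      exact h1.symm
  refine ⟨{E | ∃ w, base (A.tyQ w) = A.tyQ w ∧ E = D w}, ?_, ?_, ?_⟩
  · rintro _ ⟨w, hw, rfl⟩ _ ⟨w', hw', rfl⟩ hne
    show Disjoint (D w) (D w')
    rw [Set.disjoint_left]
    intro y h1 h2
    rw [hmem] at h1 h2
    exact hne (by rw [← h1, ← h2])
  · ext y
    simp only [Set.mem_sUnion, Set.mem_univ, iff_true]
    refine ⟨D (F y), ⟨F y, ?_, rfl⟩, (hmem _ _).2 rfl⟩
    have h1 : A.tyQ (F y) = base (A.ty y) := (ε (A.ty y) ⟨A.qm y, A.tyQ_mk y⟩).2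
    rw [h1, base_base]
  · rintro _ ⟨w, hw, rfl⟩
    refine A.plex_of_cells (PT (A.tyQ w)) (f w) (fun t ht => ?_)
      (fun i => (PT_count _ hw i).1) (fun i => (PT_count _ hw i).2.1)
      (fun i => (PT_count _ hw i).2.2)
    have ht' : A.tyQ w = base t := by
      simp only [PT, Finset.mem_filter, Finset.mem_univ, true_and] at ht
      exact ht.symm
    have h1 : f w t = ((ε t).symm ⟨w, ht'⟩).1.out := by
      rw [hf]; exact dif_pos ht'
    rw [h1]
    exact ((ε t).symm ⟨w, ht'⟩).2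

end Semi

end

end Pool.Agent.SemiReg76
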