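import Pool.Agent.SemiReg76.Main
import Pool.Agent.SemiReg76.Two

/-!
Assembly.
-/

set_option autoImplicit false

namespace Pool.Agent.SemiReg76

open Pool.Agent.Duplex38

lemma card_eq_mul (G X : Type) [Group G] [MulAction G X] [Finite X]
    (hfree : ∀ (g : G) (x : X), g • x = x → g = 1) :
    Nat.card X = Nat.card (MulAction.orbitRel.Quotient G X) * Nat.card G := by
  obtain ⟨ρ, h1, h2⟩ := exists_orbit_map G X rfl
  have h3 := Semi.sum_aux ρ (Set.univ : Set X)
  rw [Set.ncard_univ] at h3
  rw [← h3]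
  have h4 : ∀ i, {x | x ∈ (Set.univ : Set X) ∧ ρ x = i}.ncard = Nat.card G := by
    intro i
    rw [← card_fiber hfree h1 h2 i]
    congr 1
    ext x
    simp
  simp only [h4, Finset.sum_const, Finset.card_univ, Fintype.card_fin, smul_eq_mul]

section

variable {G R C S : Type} [Group G] [MulAction G R] [MulAction G C] [MulAction G S]

theorem setup [Finite R] [Finite C] [Finite S] [Nonempty C] (L : R → C → S) (latin : IsLatin L)
    (auto : ∀ (g : G) (r : R) (c : C), L (g • r) (g • c) = g • L r c)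
    (fR : ∀ (g : G) (r : R), g • r = r → g = 1) (fC : ∀ (g : G) (c : C), g • c = c → g = 1)
    (fS : ∀ (g : G) (s : S), g • s = s → g = 1) (order : 2 ≤ Nat.card R) :
    0 < Nat.card G ∧
      Nonempty (Semi G R C S L (Nat.card (MulAction.orbitRel.Quotient G R))) := by
  have hRne : Nonempty R := by
    by_contra h
    rw [not_nonempty_iff] at h
    rw [Nat.card_of_isEmpty] at order
    omega
  obtain ⟨r₀⟩ := hRne
  have hGinj : Function.Injective fun g : G => g • r₀ := by
    intro g h hgh
    have h2 := fR (h⁻¹ * g) r₀ (by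
      rw [mul_smul]
      have h3 : g • r₀ = h • r₀ := hgh
      rw [h3, inv_smul_smul])
    rw [inv_mul_eq_one] at h2
    exact h2.symm
  have hfin : Finite G := Finite.of_injective _ hGinj
  have hG : 0 < Nat.card G := Nat.card_pos
  have e1 : Nat.card C = Nat.card S := Nat.card_congr (Equiv.ofBijective _ (latin.1 r₀))
  obtain ⟨c₀⟩ := (inferInstance : Nonempty C)
  have e2 : Nat.card R = Nat.card S := Nat.card_congr (Equiv.ofBijective _ (latin.2 c₀))
  have q1 := card_eq_mul G R fR
  have q2 := card_eq_mul G C fC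
  have q3 := card_eq_mul G S fS
  have q4 : Nat.card (MulAction.orbitRel.Quotient G C)
      = Nat.card (MulAction.orbitRel.Quotient G R) := by
    refine Nat.eq_of_mul_eq_mul_right hG ?_
    rw [← q1, ← q2, e1, e2]
  have q5 : Nat.card (MulAction.orbitRel.Quotient G S)
      = Nat.card (MulAction.orbitRel.Quotient G R) := by
    refine Nat.eq_of_mul_eq_mul_right hG ?_
    rw [← q1, ← q3, e2]
  obtain ⟨ρ, a1, a2⟩ := exists_orbit_map G R rfl
  obtain ⟨κ, b1, b2⟩ := exists_orbit_map G C q4
  obtain ⟨σ, c1, c2⟩ := exists_orbit_map G S q5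
  exact ⟨hG, ⟨⟨latin, auto, fR, fC, fS, ρ, κ, σ, a1, b1, c1, a2, b2, c2⟩⟩⟩

end

end Pool.Agent.SemiReg76
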