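import Mathlib

/-!
Nonnegative `3 × 3 × 3` arrays with all line sums one: three permutations in the support of the
layers, one in each layer, with a common transversal.
-/

set_option autoImplicit false

namespace Pool.Agent.SemiReg76

/-- the six permutations of `Fin 3` as functions -/
def pm (e : Bool) (a : Fin 3) (i : Fin 3) : Fin 3 := if e then i + a else a - i

lemma pm_all : ∀ σ : Equiv.Perm (Fin 3), ∃ e a, ∀ i, σ i = pm e a i := by
  decide +kernel

/-- a common transversal -/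
def Good (f g h : Fin 3 → Fin 3) : Prop :=
  ∃ r0 r1 r2 : Fin 3, r0 ≠ r1 ∧ r0 ≠ r2 ∧ r1 ≠ r2 ∧ f r0 ≠ g r1 ∧ f r0 ≠ h r2 ∧ g r1 ≠ h r2

instance (f g h : Fin 3 → Fin 3) : Decidable (Good f g h) := by unfold Good; infer_instance

lemma good_or : ∀ e0 a0 e1 a1 e2 a2, Good (pm e0 a0) (pm e1 a1) (pm e2 a2) ∨
    (e0 = e1 ∧ e1 = e2 ∧ ¬ (a0 ≠ a1 ∧ a0 ≠ a2 ∧ a1 ≠ a2)) := by
  decide +kernel

/-- the permutation `pm e a` -/
noncomputable def pmE (e : Bool) (a : Fin 3) : Equiv.Perm (Fin 3) :=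
  Equiv.ofBijective (pm e a) (Finite.injective_iff_bijective.1 (by
    revert e a; decide))

lemma pmE_apply (e : Bool) (a i : Fin 3) : pmE e a i = pm e a i := rfl

lemma birkhoff (M : Fin 3 → Fin 3 → ℝ) (h0 : ∀ i j, 0 ≤ M i j) (hr : ∀ i, ∑ j, M i j = 1)
    (hc : ∀ j, ∑ i, M i j = 1) :
    ∃ w : Equiv.Perm (Fin 3) → ℝ, (∀ σ, 0 ≤ w σ) ∧ ∑ σ, w σ = 1 ∧
      ∀ i j, M i j = ∑ σ, if σ i = j then w σ else 0 := by
  have hM : (Matrix.of M) ∈ doublyStochastic ℝ (Fin 3) :=
    mem_doublyStochastic_iff_sum.2 ⟨h0, hr, hc⟩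
  obtain ⟨w, h1, h2, h3⟩ := exists_eq_sum_perm_of_mem_doublyStochastic hM
  refine ⟨w, h1, h2, fun i j => ?_⟩
  have h4 : (Matrix.of M) i j = M i j := rfl
  rw [← h4, ← h3, Matrix.sum_apply]
  refine Finset.sum_congr rfl fun σ _ => ?_
  have h5 : (j ∈ σ.toPEquiv i) ↔ σ i = j := by
    rw [Equiv.toPEquiv_apply]
    simp [eq_comm]
  have h6 : (Equiv.Perm.permMatrix ℝ σ) i j = if σ i = j then (1 : ℝ) else 0 := by
    show (if j ∈ σ.toPEquiv i then (1 : ℝ) else 0) = _
    simp only [h5]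
  rw [Matrix.smul_apply]
  show w σ * (Equiv.Perm.permMatrix ℝ σ) i j = _
  rw [h6]
  split_ifs <;> simp

lemma pos_of_w {M : Fin 3 → Fin 3 → ℝ} {w : Equiv.Perm (Fin 3) → ℝ} (h0 : ∀ σ, 0 ≤ w σ)
    (h : ∀ i j, M i j = ∑ σ, if σ i = j then w σ else 0) {σ : Equiv.Perm (Fin 3)}
    (hσ : 0 < w σ) (i : Fin 3) : 0 < M i (σ i) := by
  rw [h]
  refine lt_of_lt_of_le hσ ?_
  have := Finset.single_le_sum (f := fun τ : Equiv.Perm (Fin 3) => if τ i = σ i then w τ else 0)
    (s := Finset.univ) (fun τ _ => by split_ifs; exacts [h0 τ, le_rfl])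
    (Finset.mem_univ σ)
  simpa using this

lemma exists_pos {w : Equiv.Perm (Fin 3) → ℝ} (h0 : ∀ σ, 0 ≤ w σ) (h1 : ∑ σ, w σ = 1) :
    ∃ σ, 0 < w σ := by
  by_contra h
  push Not at h
  have : ∑ σ, w σ = 0 := Finset.sum_eq_zero fun σ _ => le_antisymm (h σ) (h0 σ)
  rw [this] at h1
  exact zero_ne_one h1

/-- a common transversal, for permutations -/
def GoodP (s : Fin 3 → Equiv.Perm (Fin 3)) (r : Fin 3 → Fin 3) : Prop :=
  Function.Injective r ∧ Function.Injective fun k => s k (r k)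

lemma goodP_of_good {s : Fin 3 → Equiv.Perm (Fin 3)} (h : Good (s 0) (s 1) (s 2)) :
    ∃ r, GoodP s r := by
  obtain ⟨r0, r1, r2, h1, h2, h3, h4, h5, h6⟩ := h
  refine ⟨![r0, r1, r2], ?_, ?_⟩
  · intro i j hij
    fin_cases i <;> fin_cases j <;> simp_all [Ne.symm] <;>
      first
        | exact absurd hij.symm h1
        | exact absurd hij.symm h2
        | exact absurd hij.symm h3
  · intro i j hij
    fin_cases i <;> fin_cases j <;> simp_all <;>
      first
        | exact absurd hij.symm h4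
        | exact absurd hij.symm h5
        | exact absurd hij.symm h6

theorem three_dim (b : Fin 3 → Fin 3 → Fin 3 → ℝ) (h0 : ∀ i j k, 0 ≤ b i j k)
    (h1 : ∀ i j, ∑ k, b i j k = 1) (h2 : ∀ i k, ∑ j, b i j k = 1) (h3 : ∀ j k, ∑ i, b i j k = 1) :
    ∃ (s : Fin 3 → Equiv.Perm (Fin 3)) (r : Fin 3 → Fin 3),
      (∀ k i, 0 < b i (s k i) k) ∧ GoodP s r := by
  have hw : ∀ k, ∃ w : Equiv.Perm (Fin 3) → ℝ, (∀ σ, 0 ≤ w σ) ∧ ∑ σ, w σ = 1 ∧
      ∀ i j, b i j k = ∑ σ, if σ i = j then w σ else 0 :=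
    fun k => birkhoff (fun i j => b i j k) (fun i j => h0 i j k) (fun i => h2 i k) fun j => h3 j k
  choose w w0 w1 w2 using hw
  by_contra hcon
  push Not at hcon
  -- every triple is bad
  have bad : ∀ s : Fin 3 → Equiv.Perm (Fin 3), (∀ k, 0 < w k (s k)) →
      ¬ Good (s 0) (s 1) (s 2) := by
    intro s hs hg
    obtain ⟨r, hr⟩ := goodP_of_good hg
    exact hcon s r (fun k i => pos_of_w (w0 k) (w2 k) (hs k) i) hr
  have ex : ∀ k, ∃ σ, 0 < w k σ := fun k => exists_pos (w0 k) (w1 k)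
  choose s0 hs0 using ex
  choose e a ha using pm_all
  have hfun : ∀ σ : Equiv.Perm (Fin 3), (σ : Fin 3 → Fin 3) = pm (e σ) (a σ) :=
    fun σ => funext (ha σ)
  -- all supports are in one coset
  have hsame : ∀ s : Fin 3 → Equiv.Perm (Fin 3), (∀ k, 0 < w k (s k)) →
      e (s 0) = e (s 1) ∧ e (s 1) = e (s 2) ∧
        ¬ (a (s 0) ≠ a (s 1) ∧ a (s 0) ≠ a (s 2) ∧ a (s 1) ≠ a (s 2)) := by
    intro s hs
    have := bad s hs
    rw [hfun (s 0), hfun (s 1), hfun (s 2)] at this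
    exact (good_or _ _ _ _ _ _).resolve_left this
  have hcoset : ∀ k σ, 0 < w k σ → e σ = e (s0 0) := by
    intro k σ hσ
    have h := hsame (Function.update s0 k σ) (by
      intro k'
      by_cases hk : k' = k
      · subst hk; simpa using hσ
      · simpa [Function.update_of_ne hk] using hs0 k')
    have h' := hsame s0 hs0
    fin_cases k
    · simp [Function.update_of_ne] at h
      rw [h.1, ← h'.1]
    · simp [Function.update_of_ne] at h
      exact h.1.symm
    · simp [Function.update_of_ne] at h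
      rw [← h.2.1, ← h.1]
  set ε := e (s0 0) with hε
  -- the weights of the coset elements
  have hN : ∀ k i c, b i (pm ε c i) k = w k (pmE ε c) := by
    intro k i c
    rw [w2 k, Finset.sum_eq_single (pmE ε c)]
    · rw [if_pos (pmE_apply ε c i)]
    · intro τ _ hτ
      split_ifs with h4
      · by_contra h5
        have h6 : 0 < w k τ := lt_of_le_of_ne (w0 k τ) (Ne.symm h5)
        have h7 := hcoset k τ h6
        apply hτ
        have h8 : a τ = c := by
          rw [ha τ i, h7] at h4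
          have : ∀ (ε : Bool) (x c i : Fin 3), pm ε x i = pm ε c i → x = c := by decide
          exact this ε _ _ i h4
        ext j
        rw [ha τ j, h7, h8, pmE_apply]
      · rfl
    · intro h; exact absurd (Finset.mem_univ _) h
  obtain ⟨v, v0, v1, v2⟩ := birkhoff (fun k c => w k (pmE ε c)) (fun k c => w0 _ _)
    (fun k => by
      have h4 : ∀ c, w k (pmE ε c) = b 0 (pm ε c 0) k := fun c => (hN k 0 c).symm
      simp only [h4]
      rw [← h2 0 k]
      have h5 : Function.Bijective fun c => pm ε c 0 :=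
        Finite.injective_iff_bijective.1 (by generalize ε = ε'; revert ε'; decide)
      exact h5.sum_comp fun j => b 0 j k)
    (fun c => by
      have h4 : ∀ k, w k (pmE ε c) = b 0 (pm ε c 0) k := fun k => (hN k 0 c).symm
      simp only [h4]
      exact h1 _ _)
  obtain ⟨τ, hτ⟩ := exists_pos v0 v1
  have h9 : ∀ k, 0 < w k (pmE ε (τ k)) := fun k => pos_of_w v0 v2 hτ k
  have h10 := (hsame (fun k => pmE ε (τ k)) h9).2.2
  apply h10
  have h11 : ∀ c, a (pmE ε c) = c := by
    intro c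
    have h12 := ha (pmE ε c) 0
    have h13 : e (pmE ε c) = ε := by
      by_contra h14
      have h15 : ∀ (ε ε' : Bool) (x c : Fin 3), ε' ≠ ε → ∃ i, pm ε c i ≠ pm ε' x i := by decide
      obtain ⟨i, hi⟩ := h15 ε (e (pmE ε c)) (a (pmE ε c)) c h14
      exact hi (by rw [← pmE_apply, ha])
    rw [h13, pmE_apply] at h12
    have : ∀ (ε : Bool) (x c i : Fin 3), pm ε c i = pm ε x i → x = c := by decide
    exact this ε _ _ 0 h12
  simp only [h11]
  refine ⟨?_, ?_, ?_⟩ <;> exact fun h => by simpa using τ.injective h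

end Pool.Agent.SemiReg76
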