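import Pool.Agent.SemiReg76.Types
import Pool.Agent.SemiReg76.Three

/-!
Latin squares with a semiregular group of autotopisms with one, two or three orbits.
-/

set_option autoImplicit false

namespace Pool.Agent.SemiReg76

open Pool.Agent.Duplex38

section

variable {G R C S : Type} [Group G] [MulAction G R] [MulAction G C] [MulAction G S]
  {L : R → C → S}

lemma count_inj : ∀ r : Fin 3 → Fin 3, Function.Injective r → ∀ i,
    (Finset.univ.filter fun k => r k = i).card = 1 ∧
      (Finset.univ.filter fun k => r k ≠ i).card = 2 := by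
  decide +kernel

lemma count_one (r : Fin 3) : (Finset.univ.filter fun k => k = r).card = 1 ∧
      (Finset.univ.filter fun k => k ≠ r).card = 2 := by
  revert r; decide

section counts

variable (s : Fin 3 → Equiv.Perm (Fin 3)) (Q : Fin 3 → Fin 3 → Prop) [DecidableRel Q]

/-- the set of types `(i, s k i, k)` with `Q i k` -/
def PP : Finset (Fin 3 × Fin 3 × Fin 3) :=
  Finset.univ.filter fun p => s p.2.2 p.1 = p.2.1 ∧ Q p.1 p.2.2

lemma PP1 (i : Fin 3) : ((PP s Q).filter fun p => p.1 = i).card
    = (Finset.univ.filter fun k => Q i k).card := by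
  symm
  refine Finset.card_bij (fun k _ => (i, s k i, k)) (fun k hk => ?_) (fun a _ b _ h => ?_) ?_
  · simp only [Finset.mem_filter, Finset.mem_univ, true_and] at hk
    simp [PP, hk]
  · simp only [Prod.mk.injEq] at h
    exact h.2.2
  · rintro ⟨i', j, k⟩ hp
    simp only [PP, Finset.mem_filter, Finset.mem_univ, true_and] at hp
    obtain ⟨⟨rfl, h2⟩, rfl⟩ := hp
    exact ⟨k, by simpa using h2, rfl⟩

lemma PP2 (j : Fin 3) : ((PP s Q).filter fun p => p.2.1 = j).card
    = (Finset.univ.filter fun k => Q ((s k).symm j) k).card := by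
  symm
  refine Finset.card_bij (fun k _ => ((s k).symm j, j, k)) (fun k hk => ?_)
    (fun a _ b _ h => ?_) ?_
  · simp only [Finset.mem_filter, Finset.mem_univ, true_and] at hk
    simp [PP, hk]
  · simp only [Prod.mk.injEq] at h
    exact h.2.2
  · rintro ⟨i, j', k⟩ hp
    simp only [PP, Finset.mem_filter, Finset.mem_univ, true_and] at hp
    obtain ⟨⟨h1, h2⟩, rfl⟩ := hp
    refine ⟨k, ?_, ?_⟩
    · rw [← h1]; simpa using h2
    · rw [← h1]; simp

lemma PP3 (k : Fin 3) : ((PP s Q).filter fun p => p.2.2 = k).card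
    = (Finset.univ.filter fun i => Q i k).card := by
  symm
  refine Finset.card_bij (fun i _ => (i, s k i, k)) (fun i hk => ?_) (fun a _ b _ h => ?_) ?_
  · simp only [Finset.mem_filter, Finset.mem_univ, true_and] at hk
    simp [PP, hk]
  · simp only [Prod.mk.injEq] at h
    exact h.1
  · rintro ⟨i, j, k'⟩ hp
    simp only [PP, Finset.mem_filter, Finset.mem_univ, true_and] at hp
    obtain ⟨⟨rfl, h2⟩, rfl⟩ := hp
    exact ⟨i, by simpa using h2, rfl⟩

end counts

theorem three [Finite R] [Finite C] [Finite S] (A : Semi G R C S L 3) (hG : 0 < Nat.card G) :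
    ∃ T D : Set (R × C), Disjoint T D ∧ IsPlex 1 L T ∧ IsPlex 2 L D := by
  classical
  set M : ℝ := ((Nat.card G * Nat.card G : ℕ) : ℝ) with hM
  have hM0 : 0 < M := by rw [hM]; exact_mod_cast Nat.mul_pos hG hG
  obtain ⟨s, r, hpos, hr, hsr⟩ := three_dim (fun i j k => (A.B i j k : ℝ) / M)
    (fun i j k => by positivity)
    (fun i j => by
      rw [← Finset.sum_div, div_eq_one_iff_eq hM0.ne', hM, ← A.sum_sym i j]; push_cast; rfl)
    (fun i k => by
      rw [← Finset.sum_div, div_eq_one_iff_eq hM0.ne', hM, ← A.sum_col i k]; push_cast; rfl)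
    (fun j k => by
      rw [← Finset.sum_div, div_eq_one_iff_eq hM0.ne', hM, ← A.sum_row j k]; push_cast; rfl)
  have hB : ∀ k i, 0 < A.B i (s k i) k := by
    intro k i
    have h1 := hpos k i
    have h2 : 0 < (A.B i (s k i) k : ℝ) := by
      by_contra h3
      push Not at h3
      have : (A.B i (s k i) k : ℝ) / M ≤ 0 := div_nonpos_of_nonpos_of_nonneg h3 hM0.le
      linarith
    exact_mod_cast h2
  have hreal : ∀ (Q : Fin 3 → Fin 3 → Prop) [DecidableRel Q], ∀ p ∈ PP s Q, ∃ x, A.ty x = p := by
    rintro Q _ ⟨i, j, k⟩ hp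
    simp only [PP, Finset.mem_filter, Finset.mem_univ, true_and] at hp
    obtain ⟨rfl, -⟩ := hp
    exact A.exists_of_B (hB k i)
  obtain ⟨T, hT, hT'⟩ := A.plex_of_types (k := 1) (PP s fun i k => i = r k) (hreal _)
    (fun i => by
      rw [PP1, ← (count_inj r hr i).1]
      congr 1; ext k; simp [eq_comm])
    (fun j => by
      rw [PP2, ← (count_inj _ hsr j).1]
      congr 1; ext k
      simp only [Finset.mem_filter, Finset.mem_univ, true_and]
      rw [Equiv.symm_apply_eq, eq_comm])
    (fun k => by rw [PP3]; exact (count_one (r k)).1)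
  obtain ⟨D, hD, hD'⟩ := A.plex_of_types (k := 2) (PP s fun i k => i ≠ r k) (hreal _)
    (fun i => by
      rw [PP1, ← (count_inj r hr i).2]
      congr 1; ext k; simp [eq_comm])
    (fun j => by
      rw [PP2, ← (count_inj _ hsr j).2]
      congr 1; ext k
      simp only [Finset.mem_filter, Finset.mem_univ, true_and]
      rw [ne_eq, Equiv.symm_apply_eq, eq_comm])
    (fun k => by rw [PP3]; exact (count_one (r k)).2)
  refine ⟨T, D, ?_, hT, hD⟩
  rw [Set.disjoint_left]
  intro y h1 h2
  have h3 := hT' y h1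
  have h4 := hD' y h2
  simp only [PP, Finset.mem_filter, Finset.mem_univ, true_and] at h3 h4
  exact h4.2 h3.2

/-- one orbit: two cells of the same row in different columns -/
theorem one [Finite R] [Finite C] [Finite S] (A : Semi G R C S L 1) (hR : 2 ≤ Nat.card R) :
    ∃ D : Set (R × C), IsPlex 2 L D := by
  classical
  have hRne : Nonempty R := by
    by_contra h
    rw [not_nonempty_iff] at h
    rw [Nat.card_of_isEmpty] at hR
    omega
  obtain ⟨r₀⟩ := hRne
  have e1 : Nat.card C = Nat.card S := Nat.card_congr (Equiv.ofBijective _ (A.latin.1 r₀))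
  have hSne : Nonempty C := by
    by_contra h
    rw [not_nonempty_iff] at h
    have : IsEmpty S := by
      rw [← not_nonempty_iff]
      rintro ⟨s⟩
      obtain ⟨c, -⟩ := (A.latin.1 r₀).2 s
      exact h.false c
    obtain ⟨i, -⟩ := A.sκ 0
    exact h.false i
  obtain ⟨c₀⟩ := hSne
  have e2 : Nat.card R = Nat.card S := Nat.card_congr (Equiv.ofBijective _ (A.latin.2 c₀))
  have hC : 1 < Nat.card C := by omega
  have : Nontrivial C := Finite.one_lt_card_iff_nontrivial.1 hC
  obtain ⟨c₁, hc⟩ := exists_ne c₀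
  set X : Set (R × C) := {(r₀, c₀), (r₀, c₁)} with hX
  have hcells : ((r₀, c₀) : R × C) ≠ (r₀, c₁) := fun h => hc (by simpa using (Prod.ext_iff.1 h).2.symm)
  have hXc : X.ncard = 2 := Set.ncard_pair hcells
  refine ⟨sat G X, isPlex_sat A.fR A.fC A.fS L A.auto X ?_ (fun r => ?_) (fun c => ?_)
    fun s => ?_⟩
  · rintro x hx y hy g hg
    have hx1 : x.1 = r₀ := by rcases hx with rfl | rfl <;> rfl
    have hy1 : y.1 = r₀ := by rcases hy with rfl | rfl <;> rfl
    have : g • x.1 = y.1 := by rw [← hg]; rfl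
    rw [hx1, hy1] at this
    rw [A.fR g r₀ this, one_smul] at hg
    exact hg
  · rw [← hXc]
    congr 1; ext x
    simp only [Set.mem_setOf_eq, and_iff_left_iff_imp]
    intro _
    exact (A.oρ _ _).1 (Subsingleton.elim _ _)
  · rw [← hXc]
    congr 1; ext x
    simp only [Set.mem_setOf_eq, and_iff_left_iff_imp]
    intro _
    exact (A.oκ _ _).1 (Subsingleton.elim _ _)
  · rw [← hXc]
    congr 1; ext x
    simp only [Set.mem_setOf_eq, and_iff_left_iff_imp]
    intro _
    exact (A.oσ _ _).1 (Subsingleton.elim _ _)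

end

end Pool.Agent.SemiReg76
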