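import Pool.Agent.SemiReg76.Core

/-!
Plexes from sets of types, and the numbers of cells of given types.
-/

set_option autoImplicit false

namespace Pool.Agent.SemiReg76

open Pool.Agent.Duplex38

/-- a latin square with a semiregular group of autotopisms, with orbit maps onto `Fin d` -/
structure Semi (G R C S : Type) [Group G] [MulAction G R] [MulAction G C] [MulAction G S]
    (L : R → C → S) (d : ℕ) where
  latin : IsLatin L
  auto : ∀ (g : G) (r : R) (c : C), L (g • r) (g • c) = g • L r c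
  fR : ∀ (g : G) (r : R), g • r = r → g = 1
  fC : ∀ (g : G) (c : C), g • c = c → g = 1
  fS : ∀ (g : G) (s : S), g • s = s → g = 1
  ρ : R → Fin d
  κ : C → Fin d
  σ : S → Fin d
  sρ : Function.Surjective ρ
  sκ : Function.Surjective κ
  sσ : Function.Surjective σ
  oρ : ∀ x y, ρ x = ρ y ↔ ∃ g : G, g • x = y
  oκ : ∀ x y, κ x = κ y ↔ ∃ g : G, g • x = y
  oσ : ∀ x y, σ x = σ y ↔ ∃ g : G, g • x = y

section

variable {G R C S : Type} [Group G] [MulAction G R] [MulAction G C] [MulAction G S]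
  {L : R → C → S} {d : ℕ}

namespace Semi

/-- the type of a cell -/
def ty (A : Semi G R C S L d) (x : R × C) : Fin d × Fin d × Fin d :=
  (A.ρ x.1, A.κ x.2, A.σ (L x.1 x.2))

lemma ty_smul (A : Semi G R C S L d) (g : G) (x : R × C) : A.ty (g • x) = A.ty x := by
  unfold ty
  have h1 : A.ρ (g • x).1 = A.ρ x.1 := ((A.oρ _ _).2 ⟨g, rfl⟩).symm
  have h2 : A.κ (g • x).2 = A.κ x.2 := ((A.oκ _ _).2 ⟨g, rfl⟩).symm
  have h3 : A.σ (L (g • x).1 (g • x).2) = A.σ (L x.1 x.2) :=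
    ((A.oσ _ _).2 ⟨g, (A.auto g x.1 x.2).symm⟩).symm
  rw [h1, h2, h3]

theorem plex_of_cells (A : Semi G R C S L d) {k : ℕ} (P : Finset (Fin d × Fin d × Fin d))
    (f : Fin d × Fin d × Fin d → R × C) (hf : ∀ p ∈ P, A.ty (f p) = p)
    (h1 : ∀ i, (P.filter fun p => p.1 = i).card = k)
    (h2 : ∀ i, (P.filter fun p => p.2.1 = i).card = k)
    (h3 : ∀ i, (P.filter fun p => p.2.2 = i).card = k) :
    IsPlex k L (sat G (f '' (P : Set (Fin d × Fin d × Fin d)))) := by
  classical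
  set X : Set (R × C) := f '' (P : Set (Fin d × Fin d × Fin d)) with hXdef
  have hX : ∀ x ∈ X, ∀ y ∈ X, ∀ g : G, g • x = y → x = y := by
    rintro x ⟨p, hp, rfl⟩ y ⟨q, hq, rfl⟩ g hg
    have : A.ty (f p) = A.ty (f q) := by rw [← hg, A.ty_smul]
    rw [hf p hp, hf q hq] at this
    rw [this]
  have key : ∀ (Q : Fin d × Fin d × Fin d → Prop) (T : R × C → Prop),
      (∀ x ∈ X, (T x ↔ Q (A.ty x))) →
      {x | x ∈ X ∧ T x}.ncard = (P.filter fun p => Q p).card := by
    intro Q T hQT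
    rw [← Set.ncard_coe_finset]
    symm
    refine Set.ncard_congr (fun p _ => f p) (fun p hp => ?_) (fun p q hp hq h => ?_) ?_
    · have hp' : p ∈ P ∧ Q p := by simpa using hp
      have hx : f p ∈ X := ⟨p, hp'.1, rfl⟩
      exact ⟨hx, (hQT _ hx).2 (by rw [hf p hp'.1]; exact hp'.2)⟩
    · have hp' : p ∈ P ∧ Q p := by simpa using hp
      have hq' : q ∈ P ∧ Q q := by simpa using hq
      rw [← hf p hp'.1, ← hf q hq'.1, h]
    · rintro x ⟨⟨p, hp, rfl⟩, hT⟩
      refine ⟨p, ?_, rfl⟩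
      have := (hQT (f p) ⟨p, hp, rfl⟩).1 hT
      rw [hf p hp] at this
      simpa using ⟨hp, this⟩
  refine isPlex_sat A.fR A.fC A.fS L A.auto X hX (fun r => ?_) (fun c => ?_) (fun s => ?_)
  · rw [key (fun p => p.1 = A.ρ r) (fun x => ∃ g : G, g • x.1 = r)
      (fun x _ => (A.oρ x.1 r).symm)]
    convert h1 (A.ρ r)
  · rw [key (fun p => p.2.1 = A.κ c) (fun x => ∃ g : G, g • x.2 = c)
      (fun x _ => (A.oκ x.2 c).symm)]
    convert h2 (A.κ c)
  · rw [key (fun p => p.2.2 = A.σ s) (fun x => ∃ g : G, g • (L x.1 x.2) = s)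
      (fun x _ => (A.oσ (L x.1 x.2) s).symm)]
    convert h3 (A.σ s)

theorem plex_of_types (A : Semi G R C S L d) {k : ℕ} (P : Finset (Fin d × Fin d × Fin d))
    (hP : ∀ p ∈ P, ∃ x, A.ty x = p) (h1 : ∀ i, (P.filter fun p => p.1 = i).card = k)
    (h2 : ∀ i, (P.filter fun p => p.2.1 = i).card = k)
    (h3 : ∀ i, (P.filter fun p => p.2.2 = i).card = k) :
    ∃ D : Set (R × C), IsPlex k L D ∧ ∀ y ∈ D, A.ty y ∈ P := by
  classical
  rcases P.eq_empty_or_nonempty with rfl | ⟨p₀, hp₀⟩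
  · have hd : ∀ i : Fin d, k = 0 := fun i => by simpa using (h1 i).symm
    refine ⟨∅, ⟨fun r => ?_, fun c => ?_, fun s => ?_⟩, fun y hy => hy.elim⟩
    · rw [hd (A.ρ r)]; simp
    · rw [hd (A.κ c)]; simp
    · rw [hd (A.σ s)]; simp
  have : Nonempty (R × C) := ⟨(hP p₀ hp₀).choose⟩
  choose! f hf using hP
  refine ⟨_, A.plex_of_cells P f hf h1 h2 h3, ?_⟩
  rintro y ⟨g, x, ⟨p, hp, rfl⟩, rfl⟩
  rw [A.ty_smul, hf p hp]
  exact hp

/-- the number of cells of type `(i, j, k)` -/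
noncomputable def B (A : Semi G R C S L d) (i j k : Fin d) : ℕ :=
  {x : R × C | A.ty x = (i, j, k)}.ncard

lemma exists_of_B (A : Semi G R C S L d) {i j k : Fin d} (h : 0 < A.B i j k) :
    ∃ x, A.ty x = (i, j, k) := by
  by_contra h2
  push Not at h2
  have : {x : R × C | A.ty x = (i, j, k)} = ∅ := by
    ext x
    simpa using h2 x
  unfold B at h
  rw [this, Set.ncard_empty] at h
  exact lt_irrefl _ h

variable [Finite R] [Finite C] [Finite S]

lemma cρ (A : Semi G R C S L d) (i : Fin d) : {r | A.ρ r = i}.ncard = Nat.card G :=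
  card_fiber A.fR A.sρ A.oρ i

lemma cκ (A : Semi G R C S L d) (i : Fin d) : {r | A.κ r = i}.ncard = Nat.card G :=
  card_fiber A.fC A.sκ A.oκ i

lemma cσ (A : Semi G R C S L d) (i : Fin d) : {r | A.σ r = i}.ncard = Nat.card G :=
  card_fiber A.fS A.sσ A.oσ i

lemma sum_aux {X : Type} [Finite X] (f : X → Fin d) (T : Set X) :
    ∑ k, {x | x ∈ T ∧ f x = k}.ncard = T.ncard := by
  classical
  have := Fintype.ofFinite X
  have h1 : ∀ k, {x | x ∈ T ∧ f x = k}.ncard
      = ((Finset.univ.filter fun x => x ∈ T).filter fun x => f x = k).card := by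
    intro k
    rw [← Set.ncard_coe_finset]
    congr 1
    ext x
    simp
  simp only [h1]
  rw [Finset.sum_card_fiberwise_eq_card_filter]
  · rw [← Set.ncard_coe_finset]
    congr 1
    ext x
    simp

/-- the sum over the symbol orbits -/
lemma sum_sym (A : Semi G R C S L d) (i j : Fin d) :
    ∑ k, A.B i j k = Nat.card G * Nat.card G := by
  have h := sum_aux (fun x : R × C => A.σ (L x.1 x.2)) {x | A.ρ x.1 = i ∧ A.κ x.2 = j}
  have h2 : ({x : R × C | A.ρ x.1 = i ∧ A.κ x.2 = j}).ncard = Nat.card G * Nat.card G := by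
    have h3 : ({x : R × C | A.ρ x.1 = i ∧ A.κ x.2 = j}) = {r | A.ρ r = i} ×ˢ {c | A.κ c = j} := rfl
    rw [h3, Set.ncard_prod, A.cρ, A.cκ]
  rw [h2] at h
  rw [← h]
  refine Finset.sum_congr rfl fun k _ => ?_
  unfold B ty
  congr 1
  ext x
  simp only [Set.mem_setOf_eq, Prod.mk.injEq]
  tauto

/-- the sum over the column orbits -/
lemma sum_col (A : Semi G R C S L d) (i k : Fin d) :
    ∑ j, A.B i j k = Nat.card G * Nat.card G := by
  have h := sum_aux (fun x : R × C => A.κ x.2) {x | A.ρ x.1 = i ∧ A.σ (L x.1 x.2) = k}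
  have h2 : ({x : R × C | A.ρ x.1 = i ∧ A.σ (L x.1 x.2) = k}).ncard
      = Nat.card G * Nat.card G := by
    have h5 : ({r | A.ρ r = i} ×ˢ {s | A.σ s = k}).ncard = Nat.card G * Nat.card G := by
      rw [Set.ncard_prod, A.cρ, A.cσ]
    rw [← h5]
    refine Set.ncard_congr (fun x _ => (x.1, L x.1 x.2)) (fun x hx => ⟨hx.1, hx.2⟩)
      (fun x y _ _ hxy => ?_) ?_
    · obtain ⟨r, c⟩ := x
      obtain ⟨r', c'⟩ := y
      simp only [Prod.mk.injEq] at hxy
      obtain ⟨rfl, h3⟩ := hxy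
      rw [(A.latin.1 r).1 h3]
    · rintro ⟨r, s⟩ ⟨h3, h4⟩
      obtain ⟨c, hc⟩ := (A.latin.1 r).2 s
      have hc' : L r c = s := hc
      exact ⟨(r, c), ⟨h3, by show A.σ (L r c) = k; rw [hc']; exact h4⟩, by
        show (r, L r c) = (r, s); rw [hc']⟩
  rw [h2] at h
  rw [← h]
  refine Finset.sum_congr rfl fun j _ => ?_
  unfold B ty
  congr 1
  ext x
  simp only [Set.mem_setOf_eq, Prod.mk.injEq]
  tauto

/-- the sum over the row orbits -/
lemma sum_row (A : Semi G R C S L d) (j k : Fin d) :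
    ∑ i, A.B i j k = Nat.card G * Nat.card G := by
  have h := sum_aux (fun x : R × C => A.ρ x.1) {x | A.κ x.2 = j ∧ A.σ (L x.1 x.2) = k}
  have h2 : ({x : R × C | A.κ x.2 = j ∧ A.σ (L x.1 x.2) = k}).ncard
      = Nat.card G * Nat.card G := by
    have h5 : ({c | A.κ c = j} ×ˢ {s | A.σ s = k}).ncard = Nat.card G * Nat.card G := by
      rw [Set.ncard_prod, A.cκ, A.cσ]
    rw [← h5]
    refine Set.ncard_congr (fun x _ => (x.2, L x.1 x.2)) (fun x hx => ⟨hx.1, hx.2⟩)
      (fun x y _ _ hxy => ?_) ?_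
    · obtain ⟨r, c⟩ := x
      obtain ⟨r', c'⟩ := y
      simp only [Prod.mk.injEq] at hxy
      obtain ⟨rfl, h3⟩ := hxy
      rw [(A.latin.2 c).1 h3]
    · rintro ⟨c, s⟩ ⟨h3, h4⟩
      obtain ⟨r, hr⟩ := (A.latin.2 c).2 s
      have hr' : L r c = s := hr
      exact ⟨(r, c), ⟨h3, by show A.σ (L r c) = k; rw [hr']; exact h4⟩, by
        show (c, L r c) = (c, s); rw [hr']⟩
  rw [h2] at h
  rw [← h]
  refine Finset.sum_congr rfl fun i _ => ?_
  unfold B ty
  congr 1
  ext x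
  simp only [Set.mem_setOf_eq, Prod.mk.injEq]
  tauto

end Semi

end

end Pool.Agent.SemiReg76
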